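import Mathlib

/-!
# Definitions for the growth rate of the coefficients of Fricke trace polynomials
-/

open MvPolynomial Matrix

namespace Pool.Agent.Fricke58e1

/-- The trace of an element of `SL₂(ℂ)`. -/
def tr (A : SpecialLinearGroup (Fin 2) ℂ) : ℂ := Matrix.trace (A : Matrix (Fin 2) (Fin 2) ℂ)

/-- `f` is a trace polynomial of the word `w`: `f (tr A, tr B, tr AB) = tr w(A,B)` for all
`A, B` in `SL₂(ℂ)`. -/
def IsTracePoly (w : FreeGroup (Fin 2)) (f : MvPolynomial (Fin 3) ℤ) : Prop :=
  ∀ A B : SpecialLinearGroup (Fin 2) ℂ,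
    aeval ![tr A, tr B, tr (A * B)] f = tr (FreeGroup.lift ![A, B] w)

/-- The trace polynomial `f_w` of `w`: the unique `f` with `IsTracePoly w f`
(for existence and uniqueness see `existsUnique_tracePoly`). -/
noncomputable def tracePoly (w : FreeGroup (Fin 2)) : MvPolynomial (Fin 3) ℤ :=
  Classical.epsilon (IsTracePoly w)

/-- The sum of the absolute values of the coefficients of `f`. -/
noncomputable def normOne (f : MvPolynomial (Fin 3) ℤ) : ℕ :=
  ∑ m ∈ f.support, (f.coeff m).natAbs

/-- The largest absolute value of a coefficient of `f`. -/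
noncomputable def normInf (f : MvPolynomial (Fin 3) ℤ) : ℕ :=
  f.support.sup fun m => (f.coeff m).natAbs

/-- The cyclically reduced length `‖w‖`. -/
def cycLen (w : FreeGroup (Fin 2)) : ℕ := (FreeGroup.reduceCyclically w.toWord).length

/-- `H(w)`: the largest absolute value of a coefficient of the trace polynomial of `w`. -/
noncomputable def H (w : FreeGroup (Fin 2)) : ℕ := normInf (tracePoly w)

/-- `L(w)`: the sum of the absolute values of the coefficients of the trace polynomial of `w`. -/
noncomputable def L (w : FreeGroup (Fin 2)) : ℕ := normOne (tracePoly w)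

/-- `max {H(w) : ‖w‖ = n}`. -/
noncomputable def maxH (n : ℕ) : ℕ := sSup {k | ∃ w, cycLen w = n ∧ H w = k}

/-- `max {L(w) : ‖w‖ = n}`. -/
noncomputable def maxL (n : ℕ) : ℕ := sSup {k | ∃ w, cycLen w = n ∧ L w = k}

/-- `C_H`. -/
noncomputable def CH : ℝ :=
  Filter.limsup (fun n : ℕ => (maxH n : ℝ) ^ (1 / (n : ℝ))) Filter.atTop

/-- `C_L`. -/
noncomputable def CL : ℝ :=
  Filter.limsup (fun n : ℕ => (maxL n : ℝ) ^ (1 / (n : ℝ))) Filter.atTop

end Pool.Agent.Fricke58e1
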