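import Pool.Agent.Fricke58e1.Defs

/-!
# Growth rate of the coefficients of Fricke trace polynomials

We prove `C_H = C_L = φ` (the golden ratio).

The key fact is the bound `L(w) ≤ 2 φ ^ n` for every word `w` of length `n` (`word_bound`), by strong
induction on `n`.  The induction step uses the identity
`f (G X G Y) = f (G X) * f (G Y) - f (X Y⁻¹)`, valid for all words `G, X, Y`, which gives
`L (G X G Y) ≤ L (G X) * L (G Y) + L (X Y⁻¹)`.  If `L (G X) φ ^ (-|G X|) + φ ^ (-2 |G|) ≤ 1`, the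
bound for `G X G Y` follows from the bounds for the shorter words `G Y` and `X Y⁻¹`.  Every cyclic
word of length at least `8` has a rotation of this form with a suitable short `G X`
(or a cancellation): two equal adjacent letters, or, for an alternating word, one of five sign
patterns (`sign_check`).
The lower bound comes from the powers of a generator.
-/

open MvPolynomial Matrix

namespace Pool.Agent.Fricke58e1

private lemma tr_mul_add (A B : SpecialLinearGroup (Fin 2) ℂ) :
    tr (A * B) + tr (A * B⁻¹) = tr A * tr B := by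
  simp [tr, trace_fin_two, Matrix.mul_apply, Fin.sum_univ_two, adjugate_fin_two]
  ring

private lemma tr_mul_comm (A B : SpecialLinearGroup (Fin 2) ℂ) : tr (A * B) = tr (B * A) := by
  simp [tr, trace_fin_two, Matrix.mul_apply, Fin.sum_univ_two]
  ring

private lemma tr_inv (A : SpecialLinearGroup (Fin 2) ℂ) : tr (A⁻¹) = tr A := by
  simp [tr, trace_fin_two, adjugate_fin_two]
  ring

private lemma tr_one : tr 1 = 2 := by
  simp [tr]

private lemma sl_sq (A : SpecialLinearGroup (Fin 2) ℂ) :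
    (A : Matrix (Fin 2) (Fin 2) ℂ) * (A : Matrix (Fin 2) (Fin 2) ℂ) = 
      tr A • (A : Matrix (Fin 2) (Fin 2) ℂ) - 1 := by
  have hA := A.det_coe
  rw [det_fin_two] at hA
  ext i j
  fin_cases i <;> fin_cases j <;>
    simp [Matrix.mul_apply, Fin.sum_univ_two, trace_fin_two, tr] <;>
    first | linear_combination (-1 : ℂ) * hA | ring

private lemma sl_ba (A B : SpecialLinearGroup (Fin 2) ℂ) :
    (B : Matrix (Fin 2) (Fin 2) ℂ) * (A : Matrix (Fin 2) (Fin 2) ℂ)
      = -((A : Matrix (Fin 2) (Fin 2) ℂ) * (B : Matrix (Fin 2) (Fin 2) ℂ))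
        + tr B • (A : Matrix (Fin 2) (Fin 2) ℂ) + tr A • (B : Matrix (Fin 2) (Fin 2) ℂ)
      + (tr (A * B) - tr A * tr B) • (1 : Matrix (Fin 2) (Fin 2) ℂ) := by
  ext i j
  fin_cases i <;> fin_cases j <;>
    simp [Matrix.mul_apply, Fin.sum_univ_two, trace_fin_two, tr] <;> ring

private lemma sl_inv (A : SpecialLinearGroup (Fin 2) ℂ) :
    ((A⁻¹ : SpecialLinearGroup (Fin 2) ℂ) : Matrix (Fin 2) (Fin 2) ℂ)
      = tr A • (1 : Matrix (Fin 2) (Fin 2) ℂ) - (A : Matrix (Fin 2) (Fin 2) ℂ) := by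
  ext i j
  fin_cases i <;> fin_cases j <;>
    simp [trace_fin_two, tr, adjugate_fin_two]

/-- `M` is a combination of `1, A, B, AB` with coefficients polynomial in the traces. -/
private def Rep (M : SpecialLinearGroup (Fin 2) ℂ → SpecialLinearGroup (Fin 2) ℂ →
    Matrix (Fin 2) (Fin 2) ℂ) : Prop :=
  ∃ p0 p1 p2 p3 : MvPolynomial (Fin 3) ℤ, ∀ A B : SpecialLinearGroup (Fin 2) ℂ,
      M A B =
        (aeval ![tr A, tr B, tr (A * B)] p0) • (1 : Matrix (Fin 2) (Fin 2) ℂ)
        + (aeval ![tr A, tr B, tr (A * B)] p1) • (A : Matrix (Fin 2) (Fin 2) ℂ)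
        + (aeval ![tr A, tr B, tr (A * B)] p2) • (B : Matrix (Fin 2) (Fin 2) ℂ)
        + (aeval ![tr A, tr B, tr (A * B)] p3) •
          ((A : Matrix (Fin 2) (Fin 2) ℂ) * (B : Matrix (Fin 2) (Fin 2) ℂ))

private lemma rep_a {M} (h : Rep M) :
    Rep (fun A B => (A : Matrix (Fin 2) (Fin 2) ℂ) * M A B) := by
  obtain ⟨p0, p1, p2, p3, h⟩ := h
  refine ⟨-p1, p0 + X 0 * p1, -p3, p2 + X 0 * p3, fun A B => ?_⟩
  have h1 := sl_sq A
  simp only [h, map_neg, map_add, map_mul, aeval_X, mul_add, Matrix.mul_smul, mul_one,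
    ← mul_assoc, h1]
  simp only [sub_mul, smul_mul_assoc, one_mul, cons_val_zero]
  module

private lemma rep_b {M} (h : Rep M) :
    Rep (fun A B => (B : Matrix (Fin 2) (Fin 2) ℂ) * M A B) := by
  obtain ⟨p0, p1, p2, p3, h⟩ := h
  refine ⟨(X 2 - X 0 * X 1) * p1 - p2 - X 0 * p3, X 1 * p1 + p3, p0 + X 0 * p1 + X 1 * p2 + X 2 * p3,
    - p1, fun A B => ?_⟩
  have h1 := sl_sq B
  have h2 := sl_ba A B
  simp only [h, map_neg, map_add, map_sub, map_mul, aeval_X, mul_add, Matrix.mul_smul, mul_one,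
    ← mul_assoc, h1, h2]
  simp only [add_mul, sub_mul, neg_mul, smul_mul_assoc, one_mul, mul_assoc, h1, mul_sub,
    Matrix.mul_smul, cons_val_zero, cons_val_one, cons_val, mul_one]
  module

private lemma rep_sub {M} (h : Rep M) (i : Fin 3) {N} (h' : Rep N) :
    Rep (fun A B => ((![tr A, tr B, tr (A * B)] : Fin 3 → ℂ) i) • M A B - N A B) := by
  obtain ⟨p0, p1, p2, p3, h⟩ := h
  obtain ⟨q0, q1, q2, q3, h'⟩ := h'
  refine ⟨X i * p0 - q0, X i * p1 - q1, X i * p2 - q2, X i * p3 - q3, fun A B => ?_⟩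
  simp only [h, h', map_sub, map_mul, aeval_X]
  module

private lemma rep_word (L : List (Fin 2 × Bool)) :
    Rep (fun A B => (FreeGroup.lift ![A, B] (FreeGroup.mk L) : SpecialLinearGroup (Fin 2) ℂ)) := by
  induction L with
  | nil => exact ⟨1, 0, 0, 0, fun A B => by simp [← FreeGroup.one_eq_mk]⟩
  | cons s L ih =>
    obtain ⟨x, b⟩ := s
    have key : ∀ A B : SpecialLinearGroup (Fin 2) ℂ,
        ((FreeGroup.lift ![A, B] (FreeGroup.mk ((x, b) :: L)) : SpecialLinearGroup (Fin 2) ℂ) :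
          Matrix (Fin 2) (Fin 2) ℂ)
        = ((cond b (![A, B] x) (![A, B] x)⁻¹ : SpecialLinearGroup (Fin 2) ℂ) :
          Matrix (Fin 2) (Fin 2) ℂ) * ((FreeGroup.lift ![A, B] (FreeGroup.mk L) :
            SpecialLinearGroup (Fin 2) ℂ) : Matrix (Fin 2) (Fin 2) ℂ) := by
      intro A B
      simp [FreeGroup.lift_mk]
    fin_cases x <;> cases b
    · have := rep_sub ih 0 (rep_a ih)
      refine (congrArg Rep ?_).mpr this
      funext A B
      rw [key]
      simp only [Bool.cond_false, Fin.zero_eta, cons_val_zero, sl_inv, sub_mul, smul_mul_assoc,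
        one_mul]
    · have := rep_a ih
      refine (congrArg Rep ?_).mpr this
      funext A B
      rw [key]
      simp
    · have := rep_sub ih 1 (rep_b ih)
      refine (congrArg Rep ?_).mpr this
      funext A B
      rw [key]
      simp only [Bool.cond_false, Fin.mk_one, cons_val_one, sl_inv, sub_mul, smul_mul_assoc,
        one_mul, cons_val_zero]
    · have := rep_b ih
      refine (congrArg Rep ?_).mpr this
      funext A B
      rw [key]
      simp

lemma exists_isTracePoly (w : FreeGroup (Fin 2)) : ∃ f, IsTracePoly w f := by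
  obtain ⟨p0, p1, p2, p3, h⟩ := rep_word w.toWord
  simp only [FreeGroup.mk_toWord] at h
  refine ⟨2 * p0 + X 0 * p1 + X 1 * p2 + X 2 * p3, fun A B => ?_⟩
  have h1 := congrArg Matrix.trace (h A B)
  have h2 : Matrix.trace ((A : Matrix (Fin 2) (Fin 2) ℂ) * (B : Matrix (Fin 2) (Fin 2) ℂ))
      = tr (A * B) := by
    simp [tr]
  simp only [trace_add, trace_smul, trace_one, Fintype.card_fin, smul_eq_mul, h2] at h1
  change _ = Matrix.trace _
  rw [h1]
  simp only [map_add, map_mul, aeval_X, map_ofNat, cons_val_zero, cons_val_one, cons_val]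
  simp only [tr]
  push_cast
  ring

private lemma tr_mul_entries (A B : SpecialLinearGroup (Fin 2) ℂ) :
    tr (A * B) = A 0 0 * B 0 0 + A 0 1 * B 1 0 + A 1 0 * B 0 1 + A 1 1 * B 1 1 := by
  simp [tr, trace_fin_two, Matrix.mul_apply, Fin.sum_univ_two]
  ring

/-- every point of `ℂ³` is `(tr A, tr B, tr AB)`. -/
lemma exists_traces (v : Fin 3 → ℂ) : ∃ A B : SpecialLinearGroup (Fin 2) ℂ,
    ![tr A, tr B, tr (A * B)] = v := by
  obtain ⟨q, hq⟩ : ∃ q : ℂ, q * q - v 2 * q + 1 = 0 := by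
    obtain ⟨s, hs⟩ := IsAlgClosed.exists_pow_nat_eq (v 2 ^ 2 - 4) (n := 2) (by norm_num)
    refine ⟨(v 2 + s) / 2, ?_⟩
    linear_combination hs / 4
  have hq0 : q ≠ 0 := by
    rintro rfl
    simp at hq
  obtain ⟨A, hA1, hA2, hA3, hA4⟩ : ∃ A : SpecialLinearGroup (Fin 2) ℂ,
      A 0 0 = v 0 ∧ A 0 1 = -1 ∧ A 1 0 = 1 ∧ A 1 1 = 0 :=
    ⟨⟨!![v 0, -1; 1, 0], by simp [det_fin_two]⟩, by simp, by simp, by simp, by simp⟩
  obtain ⟨B, hB1, hB2, hB3, hB4⟩ : ∃ B : SpecialLinearGroup (Fin 2) ℂ,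
      B 0 0 = 0 ∧ B 0 1 = q ∧ B 1 0 = -q⁻¹ ∧ B 1 1 = v 1 :=
    ⟨⟨!![0, q; -q⁻¹, v 1], by simp [det_fin_two, hq0]⟩, by simp, by simp, by simp, by simp⟩
  have h2 : v 2 = q + q⁻¹ := by
    field_simp
    linear_combination -hq
  refine ⟨A, B, ?_⟩
  funext i
  fin_cases i
  · simp [tr, trace_fin_two, hA1, hA4]
  · simp [tr, trace_fin_two, hB1, hB4]
  · simp [tr_mul_entries, h2, hA1, hA2, hA3, hA4, hB1, hB2, hB3, hB4]
    ring

lemma isTracePoly_unique {w : FreeGroup (Fin 2)} {f g : MvPolynomial (Fin 3) ℤ}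
    (hf : IsTracePoly w f) (hg : IsTracePoly w g) : f = g := by
  apply MvPolynomial.map_injective (algebraMap ℤ ℂ) (RingHom.injective_int _)
  apply MvPolynomial.funext
  intro v
  obtain ⟨A, B, rfl⟩ := exists_traces v
  have h1 := hf A B
  have h2 := hg A B
  rw [aeval_def, ← eval_map] at h1 h2
  rw [h1, h2]

theorem existsUnique_tracePoly (w : FreeGroup (Fin 2)) : ∃! f, IsTracePoly w f := by
  obtain ⟨f, hf⟩ := exists_isTracePoly w
  exact ⟨f, hf, fun g hg => isTracePoly_unique hg hf⟩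

lemma normOne_eq_of_subset {f : MvPolynomial (Fin 3) ℤ} {s : Finset (Fin 3 →₀ ℕ)}
    (h : f.support ⊆ s) : normOne f = ∑ m ∈ s, (f.coeff m).natAbs := by
  unfold normOne
  apply Finset.sum_subset h
  intro m _ hm
  simp [MvPolynomial.notMem_support_iff.mp hm]

lemma normOne_add (f g : MvPolynomial (Fin 3) ℤ) : normOne (f + g) ≤ normOne f + normOne g := by
  classical
  rw [normOne_eq_of_subset (s := f.support ∪ g.support) MvPolynomial.support_add,
    normOne_eq_of_subset (f := f) (s := f.support ∪ g.support) Finset.subset_union_left,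
    normOne_eq_of_subset (f := g) (s := f.support ∪ g.support) Finset.subset_union_right,
    ← Finset.sum_add_distrib]
  apply Finset.sum_le_sum
  intro m _
  rw [coeff_add]
  exact Int.natAbs_add_le _ _

lemma normOne_neg (f : MvPolynomial (Fin 3) ℤ) : normOne (-f) = normOne f := by
  simp [normOne, MvPolynomial.support_neg]

lemma normOne_sub (f g : MvPolynomial (Fin 3) ℤ) : normOne (f - g) ≤ normOne f + normOne g := by
  rw [sub_eq_add_neg, ← normOne_neg g]
  exact normOne_add _ _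

lemma normOne_monomial (m : Fin 3 →₀ ℕ) (c : ℤ) : normOne (monomial m c) = c.natAbs := by
  classical
  rw [normOne_eq_of_subset (s := {m}) (support_monomial_subset)]
  simp

lemma normOne_sum {ι : Type*} (s : Finset ι) (f : ι → MvPolynomial (Fin 3) ℤ) :
    normOne (∑ i ∈ s, f i) ≤ ∑ i ∈ s, normOne (f i) := by
  classical
  induction s using Finset.induction_on with
  | empty => simp [normOne]
  | insert a s ha ih =>
    rw [Finset.sum_insert ha, Finset.sum_insert ha]
    exact (normOne_add _ _).trans (by omega)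

lemma normOne_monomial_mul (m : Fin 3 →₀ ℕ) (c : ℤ) (g : MvPolynomial (Fin 3) ℤ) :
    normOne (monomial m c * g) ≤ c.natAbs * normOne g := by
  classical
  rw [normOne_eq_of_subset (f := monomial m c * g) (s := g.support.map (addLeftEmbedding m))]
  · rw [Finset.sum_map, normOne, Finset.mul_sum]
    apply Finset.sum_le_sum
    intro k _
    rw [addLeftEmbedding_apply, coeff_monomial_mul, Int.natAbs_mul]
  · intro k hk
    have := support_mul _ _ hk
    rw [Finset.mem_add] at this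
    obtain ⟨a, ha, b, hb, rfl⟩ := this
    have ha' := support_monomial_subset ha
    rw [Finset.mem_singleton] at ha'
    subst ha'
    rw [Finset.mem_map]
    exact ⟨b, hb, rfl⟩

lemma normOne_mul (f g : MvPolynomial (Fin 3) ℤ) : normOne (f * g) ≤ normOne f * normOne g := by
  conv_lhs => rw [as_sum f, Finset.sum_mul]
  refine (normOne_sum _ _).trans ?_
  rw [normOne, Finset.sum_mul]
  exact Finset.sum_le_sum fun m _ => normOne_monomial_mul _ _ _

lemma normOne_X (i : Fin 3) : normOne (X i) = 1 := by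
  rw [X, normOne_monomial]; rfl

lemma normOne_C (c : ℤ) : normOne (C c) = c.natAbs := by
  rw [C_apply, normOne_monomial]

lemma normInf_le_normOne (f : MvPolynomial (Fin 3) ℤ) : normInf f ≤ normOne f := by
  unfold normInf normOne
  apply Finset.sup_le
  intro m hm
  exact Finset.single_le_sum (f := fun m => (f.coeff m).natAbs) (fun _ _ => Nat.zero_le _) hm

lemma normOne_le_card_mul (f : MvPolynomial (Fin 3) ℤ) :
    normOne f ≤ f.support.card * normInf f := by
  unfold normOne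
  rw [← smul_eq_mul]
  apply Finset.sum_le_card_nsmul
  intro m hm
  exact Finset.le_sup (f := fun m => (f.coeff m).natAbs) hm

/-- evaluating at a point of the closed unit polydisc -/
lemma norm_aeval_le (f : MvPolynomial (Fin 3) ℤ) (v : Fin 3 → ℂ) (hv : ∀ i, ‖v i‖ ≤ 1) :
    ‖aeval v f‖ ≤ normOne f := by
  conv_lhs => rw [as_sum f]
  rw [map_sum, normOne]
  refine (norm_sum_le _ _).trans ?_
  push_cast
  apply Finset.sum_le_sum
  intro m _
  rw [aeval_monomial, norm_mul]
  have h1 : ‖(algebraMap ℤ ℂ) (coeff m f)‖ = |((coeff m f : ℤ) : ℝ)| := by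
    simp
  rw [h1, Finsupp.prod, norm_prod]
  have h2 : ∏ i ∈ m.support, ‖v i ^ m i‖ ≤ 1 := by
    apply Finset.prod_le_one
    · intro i _; positivity
    · intro i _
      rw [norm_pow]
      exact pow_le_one₀ (norm_nonneg _) (hv i)
  have h3 : (((coeff m f).natAbs : ℕ) : ℝ) = |((coeff m f : ℤ) : ℝ)| := by
    rw [Nat.cast_natAbs, Int.cast_abs]
  calc |((coeff m f : ℤ) : ℝ)| * ∏ i ∈ m.support, ‖v i ^ m i‖
      ≤ |((coeff m f : ℤ) : ℝ)| * 1 := by gcongr
    _ = _ := by rw [mul_one]; exact h3.symm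


/-! ### Trace polynomials and their norms -/

lemma tracePoly_spec (w : FreeGroup (Fin 2)) : IsTracePoly w (tracePoly w) :=
  Classical.epsilon_spec (exists_isTracePoly w)

lemma tracePoly_eq {w : FreeGroup (Fin 2)} {f : MvPolynomial (Fin 3) ℤ} (h : IsTracePoly w f) :
    tracePoly w = f := isTracePoly_unique (tracePoly_spec w) h

/-- `L(w)` -/
noncomputable abbrev N (w : FreeGroup (Fin 2)) : ℕ := normOne (tracePoly w)

lemma tp_one : tracePoly 1 = C 2 := by
  apply tracePoly_eq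
  intro A B
  simp [tr_one]

lemma tp_mul (u v : FreeGroup (Fin 2)) :
    tracePoly (u * v) = tracePoly u * tracePoly v - tracePoly (u * v⁻¹) := by
  apply tracePoly_eq
  intro A B
  rw [map_sub, map_mul, tracePoly_spec u A B, tracePoly_spec v A B, tracePoly_spec (u * v⁻¹) A B]
  simp only [map_mul, map_inv]
  rw [← tr_mul_add]
  ring

lemma tp_comm (u v : FreeGroup (Fin 2)) : tracePoly (u * v) = tracePoly (v * u) := by
  apply tracePoly_eq
  intro A B
  rw [tracePoly_spec (v * u) A B, map_mul, map_mul, tr_mul_comm]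

lemma tp_inv (u : FreeGroup (Fin 2)) : tracePoly u⁻¹ = tracePoly u := by
  apply tracePoly_eq
  intro A B
  rw [tracePoly_spec u A B, map_inv, tr_inv]

lemma tp_of0 : tracePoly (FreeGroup.of 0) = X 0 := by
  apply tracePoly_eq
  intro A B
  simp

lemma tp_of1 : tracePoly (FreeGroup.of 1) = X 1 := by
  apply tracePoly_eq
  intro A B
  simp

lemma tp_of01 : tracePoly (FreeGroup.of 0 * FreeGroup.of 1) = X 2 := by
  apply tracePoly_eq
  intro A B
  simp

lemma N_one : N 1 = 2 := by rw [N, tp_one, normOne_C]; rfl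

lemma N_mul (u v : FreeGroup (Fin 2)) : N (u * v) ≤ N u * N v + N (u * v⁻¹) := by
  rw [N, tp_mul]
  exact (normOne_sub _ _).trans (Nat.add_le_add_right (normOne_mul _ _) _)

lemma N_comm (u v : FreeGroup (Fin 2)) : N (u * v) = N (v * u) := by
  rw [N, tp_comm]

lemma N_inv (u : FreeGroup (Fin 2)) : N u⁻¹ = N u := by
  rw [N, tp_inv]

lemma N_conj {u v : FreeGroup (Fin 2)} (g : FreeGroup (Fin 2)) (h : v = g * u * g⁻¹) :
    N v = N u := by
  rw [h, N_comm, inv_mul_cancel_left]

section pair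

variable {P Q : FreeGroup (Fin 2)} (hP : N P ≤ 1) (hQ : N Q ≤ 1) (hPQ : N (P * Q) ≤ 1)
include hP hQ hPQ

lemma N_p1 : N (P * Q⁻¹) ≤ 2 := by
  have h := N_mul P Q⁻¹
  rw [inv_inv, N_inv] at h
  nlinarith

lemma N_p2 : N (P⁻¹ * Q) ≤ 2 := by
  have h := N_p1 hP hQ hPQ
  have : N (P⁻¹ * Q) = N (P * Q⁻¹) := by
    rw [← N_inv, N_comm P Q⁻¹]
    congr 1
    group
  omega

omit hP hPQ in
lemma N_sq : N (Q * Q) ≤ 3 := by
  have h := N_mul Q Q
  rw [mul_inv_cancel, N_one] at h
  nlinarith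

lemma N_comm4 : N (P * Q * P⁻¹ * Q⁻¹) ≤ 6 := by
  have h1 := N_mul (P * Q) (P⁻¹ * Q⁻¹)
  have h2 : N (P⁻¹ * Q⁻¹) = N (P * Q) := by
    rw [← N_inv, N_comm P Q]
    congr 1
    group
  have h3 : N (P * Q * (P⁻¹ * Q⁻¹)⁻¹) = N (P * (P * Q * Q)) :=
    N_conj P⁻¹ (by simp [mul_assoc])
  have h4 := N_mul P (P * Q * Q)
  have h5 : N (P * (P * Q * Q)⁻¹) = N (Q * Q) := by
    rw [← N_inv]
    exact N_conj P (by simp [mul_assoc])
  have h6 := N_mul (P * Q) Q
  have h7 : N (P * Q * Q⁻¹) = N P := by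
    congr 1
    group
  have h8 := N_sq hQ
  have h9 : P * Q * (P⁻¹ * Q⁻¹) = P * Q * P⁻¹ * Q⁻¹ := by group
  rw [h9, h2] at h1
  rw [h3] at h1
  rw [h5] at h4
  rw [h7] at h6
  nlinarith

lemma N_c6a : N (P * Q * P⁻¹ * Q * P * Q⁻¹) ≤ 15 := by
  -- rotate to `(Q P⁻¹) (Q P Q⁻¹ P)`
  have h0 : N (P * Q * P⁻¹ * Q * P * Q⁻¹) = N ((Q * P⁻¹) * (Q * P * Q⁻¹ * P)) :=
    N_conj P (by simp [mul_assoc])
  have h1 := N_mul (Q * P⁻¹) (Q * P * Q⁻¹ * P)
  have h2 : N (Q * P⁻¹) = N (P * Q⁻¹) := by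
    rw [← N_inv]
    congr 1
    group
  have h3 : N ((Q * P⁻¹) * (Q * P * Q⁻¹ * P)⁻¹) = N (P⁻¹ * (P⁻¹ * (P⁻¹ * Q))) :=
    N_conj (Q * P) (by simp [mul_assoc])
  have h4 := N_mul P⁻¹ (P⁻¹ * (P⁻¹ * Q))
  have h5 := N_mul P⁻¹ (P⁻¹ * Q)
  have h6 : N (P⁻¹ * (P⁻¹ * (P⁻¹ * Q))⁻¹) = N (P⁻¹ * Q) := by
    rw [← N_inv]
    exact N_conj P⁻¹ (by simp [mul_assoc])
  have h7 : N (P⁻¹ * (P⁻¹ * Q)⁻¹) = N Q := by
    rw [← N_inv]
    exact N_conj P⁻¹ (by simp [mul_assoc])
  have h8 := N_p1 hP hQ hPQ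
  have h9 := N_p2 hP hQ hPQ
  have h10 := N_mul (Q * P) (Q⁻¹ * P)
  have h11 : N (Q * P * (Q⁻¹ * P)⁻¹) = N (Q * Q) := by
    exact N_conj 1 (by simp [mul_assoc])
  have h12 : N (Q * P) = N (P * Q) := N_comm _ _
  have h13 : N (Q⁻¹ * P) = N (P * Q⁻¹) := N_comm _ _
  have h14 := N_sq hQ
  have h15 : Q * P * (Q⁻¹ * P) = Q * P * Q⁻¹ * P := by group
  rw [h11, h12, h13, h15] at h10
  rw [h3, h2] at h1
  rw [h6, N_inv] at h4
  rw [h7, N_inv] at h5
  rw [h0]
  have a1 : N (Q * P * Q⁻¹ * P) ≤ 5 := by nlinarith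
  have a2 : N (P⁻¹ * (P⁻¹ * Q)) ≤ 3 := by nlinarith
  have a3 : N (P⁻¹ * (P⁻¹ * (P⁻¹ * Q))) ≤ 5 := by nlinarith
  have a4 : N (P * Q⁻¹) * N (Q * P * Q⁻¹ * P) ≤ 2 * 5 := Nat.mul_le_mul h8 a1
  omega

lemma N_c6b : N (P * Q⁻¹ * P * Q * P⁻¹ * Q⁻¹) ≤ 15 := by
  -- rotate to `(Q⁻¹ P) (Q⁻¹ P Q P⁻¹)`
  have h0 : N (P * Q⁻¹ * P * Q * P⁻¹ * Q⁻¹) = N ((Q⁻¹ * P) * (Q⁻¹ * P * Q * P⁻¹)) :=
    N_conj Q (by simp [mul_assoc])
  have h1 := N_mul (Q⁻¹ * P) (Q⁻¹ * P * Q * P⁻¹)
  have h2 : N (Q⁻¹ * P) = N (P * Q⁻¹) := N_comm _ _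
  have h3 : N (Q⁻¹ * P * Q * P⁻¹) = N (P * Q * P⁻¹ * Q⁻¹) :=
    N_conj Q⁻¹ (by simp [mul_assoc])
  have h4 : N ((Q⁻¹ * P) * (Q⁻¹ * P * Q * P⁻¹)⁻¹) = N (P * Q⁻¹) :=
    N_conj (Q⁻¹ * P) (by simp [mul_assoc])
  have h5 := N_comm4 hP hQ hPQ
  have h6 := N_p1 hP hQ hPQ
  rw [h2, h3, h4] at h1
  rw [h0]
  have a4 : N (P * Q⁻¹) * N (P * Q * P⁻¹ * Q⁻¹) ≤ 2 * 6 := Nat.mul_le_mul h6 h5
  omega

end pair

/-! ### Sign patterns in alternating cyclic words -/

/-- pattern `+ + +` -/
def T1 (x : ℕ → Bool) (i : ℕ) : Prop := x (i+1) = x i ∧ x (i+2) = x i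
/-- pattern `+ - + -` -/
def T2 (x : ℕ → Bool) (i : ℕ) : Prop := x (i+1) = !x i ∧ x (i+2) = x i ∧ x (i+3) = !x i
/-- pattern `+ + - - + + -` -/
def C4 (x : ℕ → Bool) (i : ℕ) : Prop := x (i+1) = x i ∧ x (i+2) = !x i ∧ x (i+3) = !x i
  ∧ x (i+4) = x i ∧ x (i+5) = x i ∧ x (i+6) = !x i
/-- pattern `+ + - + + - + +` -/
def C6a (x : ℕ → Bool) (i : ℕ) : Prop := x (i+1) = x i ∧ x (i+2) = !x i ∧ x (i+3) = x i
  ∧ x (i+4) = x i ∧ x (i+5) = !x i ∧ x (i+6) = x i ∧ x (i+7) = x i
/-- pattern `+ - + + - - + -` -/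
def C6b (x : ℕ → Bool) (i : ℕ) : Prop := x (i+1) = !x i ∧ x (i+2) = x i ∧ x (i+3) = x i
  ∧ x (i+4) = !x i ∧ x (i+5) = !x i ∧ x (i+6) = x i ∧ x (i+7) = !x i

theorem sign_check (x : ℕ → Bool) : ∃ i, T1 x i ∨ T2 x i ∨ C4 x i ∨ C6a x i ∨ C6b x i := by
  by_contra h
  push Not at h
  have t0 := (h 0).1; have t1 := (h 1).1; have t2 := (h 2).1; have t3 := (h 3).1; have t4 := (h 4).1
  have t5 := (h 5).1; have t6 := (h 6).1; have t7 := (h 7).1; have t8 := (h 8).1; have t9 := (h 9).1
  have t10 := (h 10).1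
  have u0 := (h 0).2.1; have u1 := (h 1).2.1; have u2 := (h 2).2.1; have u3 := (h 3).2.1; have u4 := (h 4).2.1
  have u5 := (h 5).2.1; have u6 := (h 6).2.1; have u7 := (h 7).2.1; have u8 := (h 8).2.1; have u9 := (h 9).2.1
  have v0 := (h 0).2.2.1; have v1 := (h 1).2.2.1; have v2 := (h 2).2.2.1; have v3 := (h 3).2.2.1
  have v4 := (h 4).2.2.1; have v5 := (h 5).2.2.1; have v6 := (h 6).2.2.1
  have w0 := (h 0).2.2.2; have w1 := (h 1).2.2.2; have w2 := (h 2).2.2.2; have w3 := (h 3).2.2.2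
  have w4 := (h 4).2.2.2; have w5 := (h 5).2.2.2
  clear h
  simp only [T1, T2, C4, C6a, C6b, Nat.reduceAdd, Nat.zero_add] at *
  generalize x 0 = b0 at *
  generalize x 1 = b1 at *
  generalize x 2 = b2 at *
  generalize x 3 = b3 at *
  generalize x 4 = b4 at *
  generalize x 5 = b5 at *
  generalize x 6 = b6 at *
  generalize x 7 = b7 at *
  generalize x 8 = b8 at *
  generalize x 9 = b9 at *
  generalize x 10 = b10 at *
  generalize x 11 = b11 at *
  generalize x 12 = b12 at *
  have nb : ∀ a b : Bool, (a = !b) ↔ ¬ (a = b) := by decide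
  rcases b0 with _ | _ <;> rcases b1 with _ | _ <;> rcases b2 with _ | _ <;> simp at t0 <;>
  rcases b3 with _ | _ <;> simp at t1 u0 <;>
  rcases b4 with _ | _ <;> simp at t2 u1 <;>
  rcases b5 with _ | _ <;> simp at t3 u2 <;>
  rcases b6 with _ | _ <;> simp at t4 u3 v0 <;>
  rcases b7 with _ | _ <;> simp at t5 u4 v1 w0 <;>
  rcases b8 with _ | _ <;> simp at t6 u5 v2 w1 <;>
  rcases b9 with _ | _ <;> simp at t7 u6 v3 w2 <;>
  rcases b10 with _ | _ <;> simp at t8 u7 v4 w3 <;>
  rcases b11 with _ | _ <;> simp at t9 u8 v5 w4 <;>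
  rcases b12 with _ | _ <;> simp at t10 u9 v6 w5


theorem sign_check4 (x : ℕ → Bool) (hx : ∀ i, x (i + 4) = x i) : ∃ i, T1 x i ∨ T2 x i ∨
    (x (i+1) = x i ∧ x (i+2) = !x i ∧ x (i+3) = !x i) := by
  by_contra h
  push Not at h
  have t0 := (h 0).1; have t1 := (h 1).1; have t2 := (h 2).1; have t3 := (h 3).1
  have u0 := (h 0).2.1; have u1 := (h 1).2.1
  have v0 := (h 0).2.2; have v1 := (h 1).2.2; have v2 := (h 2).2.2; have v3 := (h 3).2.2
  have e4 := hx 0; have e5 := hx 1; have e6 := hx 2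
  clear h hx
  simp only [T1, T2, Nat.reduceAdd, Nat.zero_add] at *
  simp only [e4, e5, e6] at t0 t1 t2 t3 u0 u1 v0 v1 v2 v3
  clear e4 e5 e6
  generalize x 0 = b0 at *
  generalize x 1 = b1 at *
  generalize x 2 = b2 at *
  generalize x 3 = b3 at *
  rcases b0 with _ | _ <;> rcases b1 with _ | _ <;> rcases b2 with _ | _ <;> simp at t0 <;>
  rcases b3 with _ | _ <;> simp at t1 u0 t2 t3 u1 v0 v1 v2 v3

theorem sign_check6 (x : ℕ → Bool) (hx : ∀ i, x (i + 6) = x i) : ∃ i, T1 x i ∨ T2 x i ∨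
    (x (i+1) = x i ∧ x (i+2) = !x i ∧ x (i+3) = x i ∧ x (i+4) = x i ∧ x (i+5) = !x i) := by
  by_contra h
  push Not at h
  have t0 := (h 0).1; have t1 := (h 1).1; have t2 := (h 2).1; have t3 := (h 3).1
  have t4 := (h 4).1; have t5 := (h 5).1
  have u0 := (h 0).2.1; have u1 := (h 1).2.1; have u2 := (h 2).2.1; have u3 := (h 3).2.1
  have u4 := (h 4).2.1; have u5 := (h 5).2.1
  have v0 := (h 0).2.2; have v1 := (h 1).2.2; have v2 := (h 2).2.2; have v3 := (h 3).2.2
  have v4 := (h 4).2.2; have v5 := (h 5).2.2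
  have e6 := hx 0; have e7 := hx 1; have e8 := hx 2; have e9 := hx 3; have e10 := hx 4
  clear h hx
  simp only [T1, T2, Nat.reduceAdd, Nat.zero_add] at *
  simp only [e6, e7, e8, e9, e10] at t0 t1 t2 t3 t4 t5 u0 u1 u2 u3 u4 u5 v0 v1 v2 v3 v4 v5
  clear e6 e7 e8 e9 e10
  generalize x 0 = b0 at *
  generalize x 1 = b1 at *
  generalize x 2 = b2 at *
  generalize x 3 = b3 at *
  generalize x 4 = b4 at *
  generalize x 5 = b5 at *
  rcases b0 with _ | _ <;> rcases b1 with _ | _ <;> rcases b2 with _ | _ <;> simp at t0 <;>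
  rcases b3 with _ | _ <;> simp at t1 u0 <;>
  rcases b4 with _ | _ <;> simp at t2 u1 <;>
  rcases b5 with _ | _ <;> simp at t3 u2 t4 t5 u3 u4 u5 v0 v1 v2 v3 v4 v5


/-! ### The bound `L(w) ≤ 2 φ ^ n` for words of length `n` -/

lemma mk_cons (a : Fin 2 × Bool) (l : List (Fin 2 × Bool)) :
    FreeGroup.mk (a :: l) = FreeGroup.mk [a] * FreeGroup.mk l := by
  rw [FreeGroup.mul_mk]; rfl

lemma mk_not (g : Fin 2) (e : Bool) : FreeGroup.mk [(g, !e)] = (FreeGroup.mk [(g, e)])⁻¹ := by
  rw [FreeGroup.inv_mk]; rfl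

lemma N_letter (p : Fin 2 × Bool) : N (FreeGroup.mk [p]) ≤ 1 := by
  have h0 : N (FreeGroup.of 0) ≤ 1 := by rw [N, tp_of0, normOne_X]
  have h1 : N (FreeGroup.of 1) ≤ 1 := by rw [N, tp_of1, normOne_X]
  obtain ⟨g, e⟩ := p
  have h : ∀ g : Fin 2, N (FreeGroup.mk [(g, true)]) ≤ 1 := by
    intro g
    fin_cases g
    · exact h0
    · exact h1
  cases e
  · rw [show (g, false) = (g, !true) from rfl, mk_not, N_inv]
    exact h g
  · exact h g

lemma N_pair_same {g g' : Fin 2} (h : g ≠ g') (e : Bool) :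
    N (FreeGroup.mk [(g, e)] * FreeGroup.mk [(g', e)]) ≤ 1 := by
  have h01 : N (FreeGroup.of 0 * FreeGroup.of 1) ≤ 1 := by rw [N, tp_of01, normOne_X]
  have key : ∀ g g' : Fin 2, g ≠ g' →
      N (FreeGroup.mk [(g, true)] * FreeGroup.mk [(g', true)]) ≤ 1 := by
    intro g g' hg
    fin_cases g <;> fin_cases g'
    · exact absurd rfl hg
    · exact h01
    · exact (N_comm _ _).trans_le h01
    · exact absurd rfl hg
  cases e
  · rw [show (g, false) = (g, !true) from rfl, show (g', false) = (g', !true) from rfl, mk_not,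
      mk_not, ← _root_.mul_inv_rev, N_inv]
    exact key g' g h.symm
  · exact key g g' h

/-- The bound for all words of length `n`. -/
def Bd (n : ℕ) : Prop := ∀ l : List (Fin 2 × Bool), l.length = n →
  (N (FreeGroup.mk l) : ℝ) ≤ 2 * Real.goldenRatio ^ n

lemma N_rotate (l : List (Fin 2 × Bool)) (i : ℕ) :
    N (FreeGroup.mk (l.rotate i)) = N (FreeGroup.mk l) := by
  rw [List.rotate_eq_drop_append_take_mod, ← FreeGroup.mul_mk, N_comm, FreeGroup.mul_mk,
    List.take_append_drop]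

lemma rule {n : ℕ} (IH : ∀ m < n, Bd m) (G X Y : List (Fin 2 × Bool)) (k p c : ℕ)
    (hG : G.length = k) (hX : X.length = p) (hlen : 2 * k + p + Y.length = n) (hk : 0 < k)
    (hc : N (FreeGroup.mk (G ++ X)) ≤ c)
    (hin : (c : ℝ) * Real.goldenRatio ^ k + Real.goldenRatio ^ p
      ≤ Real.goldenRatio ^ (2 * k + p)) :
    (N (FreeGroup.mk (G ++ X ++ (G ++ Y))) : ℝ) ≤ 2 * Real.goldenRatio ^ n := by
  subst hG hX
  have h1 := N_mul (FreeGroup.mk (G ++ X)) (FreeGroup.mk (G ++ Y))
  have h2 : N (FreeGroup.mk (G ++ X) * (FreeGroup.mk (G ++ Y))⁻¹)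
      = N (FreeGroup.mk (X ++ FreeGroup.invRev Y)) := by
    refine N_conj (FreeGroup.mk G) ?_
    rw [← FreeGroup.mul_mk, ← FreeGroup.mul_mk, ← FreeGroup.mul_mk, ← FreeGroup.inv_mk]
    simp
  rw [h2, FreeGroup.mul_mk] at h1
  have h3 := IH (G.length + Y.length) (by omega) (G ++ Y) (by simp)
  have h4 := IH (X.length + Y.length) (by omega) (X ++ FreeGroup.invRev Y)
    (by simp [FreeGroup.invRev_length])
  have h5 : (N (FreeGroup.mk (G ++ X ++ (G ++ Y))) : ℝ)
      ≤ N (FreeGroup.mk (G ++ X)) * N (FreeGroup.mk (G ++ Y))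
        + N (FreeGroup.mk (X ++ FreeGroup.invRev Y)) := by
    exact_mod_cast h1
  have h6 : (N (FreeGroup.mk (G ++ X)) : ℝ) ≤ c := by exact_mod_cast hc
  have hpos : (0 : ℝ) < Real.goldenRatio := Real.goldenRatio_pos
  calc (N (FreeGroup.mk (G ++ X ++ (G ++ Y))) : ℝ)
      ≤ N (FreeGroup.mk (G ++ X)) * N (FreeGroup.mk (G ++ Y))
        + N (FreeGroup.mk (X ++ FreeGroup.invRev Y)) := h5
    _ ≤ c * (2 * Real.goldenRatio ^ (G.length + Y.length))
        + 2 * Real.goldenRatio ^ (X.length + Y.length) := by gcongr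
    _ = 2 * Real.goldenRatio ^ Y.length *
        ((c : ℝ) * Real.goldenRatio ^ G.length + Real.goldenRatio ^ X.length) := by ring
    _ ≤ 2 * Real.goldenRatio ^ Y.length * Real.goldenRatio ^ (2 * G.length + X.length) := by
        gcongr
    _ = 2 * Real.goldenRatio ^ n := by
        rw [← hlen]; ring

/-- the letters of the cyclic word `l`, indexed by `ℕ` -/
def letter (l : List (Fin 2 × Bool)) (j : ℕ) : Fin 2 × Bool := l.getD (j % l.length) (0, true)

lemma rotate_split (l : List (Fin 2 × Bool)) (i K : ℕ) (hK : K ≤ l.length) :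
    ∃ Y, l.rotate i = (List.range K).map (fun j => letter l (i + j)) ++ Y := by
  refine ⟨(l.rotate i).drop K, ?_⟩
  conv_lhs => rw [← List.take_append_drop K (l.rotate i)]
  congr 1
  apply List.ext_getElem
  · simp [hK]
  · intro j h1 h2
    simp only [List.getElem_take, List.getElem_rotate, List.getElem_map, List.getElem_range, letter]
    rw [List.getD_eq_getElem]
    · congr 2
      omega
    · apply Nat.mod_lt
      simp at h1
      omega

lemma letter_add (l : List (Fin 2 × Bool)) (j : ℕ) : letter l (j + l.length) = letter l j := by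
  simp [letter]

lemma gr_pow : Real.goldenRatio ^ 3 = 2 * Real.goldenRatio + 1 ∧
    Real.goldenRatio ^ 4 = 3 * Real.goldenRatio + 2 ∧
    Real.goldenRatio ^ 6 = 8 * Real.goldenRatio + 5 ∧
    Real.goldenRatio ^ 7 = 13 * Real.goldenRatio + 8 ∧
    Real.goldenRatio ^ 8 = 21 * Real.goldenRatio + 13 := by
  have h := Real.goldenRatio_sq
  have h3 : Real.goldenRatio ^ 3 = 2 * Real.goldenRatio + 1 := by
    calc Real.goldenRatio ^ 3 = Real.goldenRatio * Real.goldenRatio ^ 2 := by ring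
      _ = _ := by rw [h]; linear_combination h
  have h4 : Real.goldenRatio ^ 4 = 3 * Real.goldenRatio + 2 := by
    calc Real.goldenRatio ^ 4 = Real.goldenRatio * Real.goldenRatio ^ 3 := by ring
      _ = _ := by rw [h3]; linear_combination 2 * h
  have h6 : Real.goldenRatio ^ 6 = 8 * Real.goldenRatio + 5 := by
    calc Real.goldenRatio ^ 6 = Real.goldenRatio ^ 3 * Real.goldenRatio ^ 3 := by ring
      _ = _ := by rw [h3]; linear_combination 4 * h
  have h7 : Real.goldenRatio ^ 7 = 13 * Real.goldenRatio + 8 := by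
    calc Real.goldenRatio ^ 7 = Real.goldenRatio ^ 3 * Real.goldenRatio ^ 4 := by ring
      _ = _ := by rw [h3, h4]; linear_combination 6 * h
  have h8 : Real.goldenRatio ^ 8 = 21 * Real.goldenRatio + 13 := by
    calc Real.goldenRatio ^ 8 = Real.goldenRatio * Real.goldenRatio ^ 7 := by ring
      _ = _ := by rw [h7]; linear_combination 13 * h
  exact ⟨h3, h4, h6, h7, h8⟩

lemma gr_gt : (8 : ℝ) / 5 < Real.goldenRatio := by
  have h := Real.goldenRatio_sq
  have h1 := Real.one_lt_goldenRatio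
  nlinarith

/-- For an alternating cyclic word: its rotations, in terms of the two generators and the signs. -/
lemma alt_rotate (l : List (Fin 2 × Bool)) (hA : ∀ i, (letter l i).1 ≠ (letter l (i + 1)).1)
    (i K : ℕ) (hK : K ≤ l.length) :
    ∃ Y, K + Y.length = l.length ∧ l.rotate i = (List.range K).map
      (fun j => (if j % 2 = 0 then (letter l i).1 else (letter l (i + 1)).1, (letter l (i + j)).2))
        ++ Y := by
  obtain ⟨Y, hY⟩ := rotate_split l i K hK
  refine ⟨Y, ?_, ?_⟩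
  · have := congrArg List.length hY
    simp at this
    omega
  · rw [hY]
    congr 1
    apply List.map_congr_left
    intro j _
    have key : ∀ j, (letter l (i + j)).1 =
        (if j % 2 = 0 then (letter l i).1 else (letter l (i + 1)).1) := by
      intro j
      induction j using Nat.strong_induction_on with
      | _ j ih =>
        match j, ih with
        | 0, _ => simp
        | 1, _ => simp
        | j + 2, ih =>
          have h1 := hA (i + j)
          have h2 := hA (i + j + 1)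
          have h3 := ih j (by omega)
          rw [show (j + 2) % 2 = j % 2 by omega, ← h3, show i + (j + 2) = i + j + 1 + 1 by ring]
          omega
    exact Prod.ext (key j) rfl

theorem word_bound (n : ℕ) : Bd n := by
  induction n using Nat.strong_induction_on with
  | _ n IH =>
  intro l hl
  have hφ1 := Real.one_lt_goldenRatio
  have hφ0 := Real.goldenRatio_pos
  have hφ2 := Real.goldenRatio_sq
  obtain ⟨hφ3, hφ4, hφ6, hφ7, hφ8⟩ := gr_pow
  have hφ := gr_gt
  -- small lengths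
  rcases Nat.lt_or_ge n 2 with hn2 | hn2
  · interval_cases n
    · rw [List.length_eq_zero_iff] at hl
      subst hl
      rw [← FreeGroup.one_eq_mk, N_one]
      norm_num
    · rw [List.length_eq_one_iff] at hl
      obtain ⟨a, rfl⟩ := hl
      have : (N (FreeGroup.mk [a]) : ℝ) ≤ 1 := by exact_mod_cast N_letter a
      linarith
  -- two cyclically consecutive letters with the same generator
  by_cases hA : ∃ i, (letter l i).1 = (letter l (i + 1)).1
  · obtain ⟨i, hi⟩ := hA
    obtain ⟨Y, hY⟩ := rotate_split l i 2 (by omega)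
    have hYlen : 2 + Y.length = n := by
      have := congrArg List.length hY
      simp at this
      omega
    rw [← N_rotate l i]
    by_cases hs : (letter l i).2 = (letter l (i + 1)).2
    · have he : letter l i = letter l (i + 1) := Prod.ext hi hs
      have hY' : l.rotate i = [letter l i] ++ [] ++ ([letter l i] ++ Y) := by
        rw [hY]
        simp [List.range_succ, ← he]
      rw [hY']
      apply rule IH [letter l i] [] Y 1 0 1 rfl rfl (by omega) (by simp) (by simpa using N_letter _)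
      rw [Nat.cast_one, pow_one, pow_zero, one_mul]
      exact hφ2.ge
    · have he : letter l (i + 1) = ((letter l i).1, !(letter l i).2) := by
        apply Prod.ext
        · exact hi.symm
        · simp only
          revert hs
          cases (letter l i).2 <;> cases (letter l (i + 1)).2 <;> simp
      have hY' : l.rotate i = [((letter l i).1, (letter l i).2), ((letter l i).1, !(letter l i).2)]
          ++ Y := by
        rw [hY]
        simp [List.range_succ, he]
      have h1 : FreeGroup.mk (l.rotate i) = FreeGroup.mk Y := by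
        rw [hY', ← FreeGroup.mul_mk, mk_cons, mk_not, mul_inv_cancel, one_mul]
      rw [h1]
      have h2 := IH (n - 2) (by omega) Y (by omega)
      refine h2.trans ?_
      have : Real.goldenRatio ^ (n - 2) ≤ Real.goldenRatio ^ n :=
        pow_le_pow_right₀ hφ1.le (by omega)
      linarith
  push Not at hA
  -- now the cyclic word is alternating
  have hper : ∀ i, letter l (i + n) = letter l i := by
    intro i
    rw [← hl]
    exact letter_add l i
  have heven : Even n := by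
    by_contra hodd
    rw [Nat.not_even_iff_odd] at hodd
    have h2 : ∀ i, (letter l (i + 2)).1 = (letter l i).1 := by
      intro i
      have h1 := hA i
      have h2 := hA (i + 1)
      rw [show i + 1 + 1 = i + 2 from rfl] at h2
      omega
    obtain ⟨k, hk⟩ := hodd
    have h1 : ∀ m, (letter l (1 + 2 * m)).1 = (letter l 1).1 := by
      intro m
      induction m with
      | zero => rfl
      | succ m ih => rw [← ih, ← h2 (1 + 2 * m)]; rfl
    have h2 := h1 k
    have h3 := hper 0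
    rw [Nat.zero_add, hk, Nat.add_comm] at h3
    rw [h3] at h2
    exact hA 0 h2
  set x : ℕ → Bool := fun i => (letter l i).2 with hx
  -- bounds for the building blocks
  have b1 := fun i e => N_pair_same (hA i) e
  -- the rules T1, T2
  have hT1 : ∀ i, 3 ≤ n → T1 x i → (N (FreeGroup.mk l) : ℝ) ≤ 2 * Real.goldenRatio ^ n := by
    rintro i hn ⟨h1, h2⟩
    obtain ⟨Y, hYlen, hY⟩ := alt_rotate l hA i 3 (by omega)
    simp only [hx] at h1 h2
    have hY' : l.rotate i = [((letter l i).1, (letter l i).2)] ++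
        [((letter l (i+1)).1, (letter l i).2)] ++ ([((letter l i).1, (letter l i).2)] ++ Y) := by
      rw [hY]
      simp [List.range_succ, h1, h2]
    rw [← N_rotate l i, hY']
    apply rule IH _ _ Y 1 1 1 rfl rfl (by omega) (by simp)
    · rw [← FreeGroup.mul_mk]
      exact b1 i _
    · norm_num only [Nat.cast_one, pow_one, one_mul]
      rw [hφ3]
      linarith
  have hT2 : ∀ i, 4 ≤ n → T2 x i → (N (FreeGroup.mk l) : ℝ) ≤ 2 * Real.goldenRatio ^ n := by
    rintro i hn ⟨h1, h2, h3⟩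
    obtain ⟨Y, hYlen, hY⟩ := alt_rotate l hA i 4 (by omega)
    simp only [hx] at h1 h2 h3
    have hY' : l.rotate i = [((letter l i).1, (letter l i).2),
        ((letter l (i+1)).1, !(letter l i).2)] ++ [] ++ ([((letter l i).1, (letter l i).2),
        ((letter l (i+1)).1, !(letter l i).2)] ++ Y) := by
      rw [hY]
      simp [List.range_succ, h1, h2, h3]
    rw [← N_rotate l i, hY']
    apply rule IH _ _ Y 2 0 2 rfl rfl (by omega) (by simp)
    · rw [List.append_nil, mk_cons, mk_not]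
      exact N_p1 (N_letter _) (N_letter _) (b1 i _)
    · norm_num only [Nat.cast_ofNat, pow_zero]
      rw [hφ4, hφ2]
      linarith
  rcases Nat.lt_or_ge n 8 with hn8 | hn8
  · have hcases : n = 2 ∨ n = 4 ∨ n = 6 := by
      obtain ⟨k, rfl⟩ := heven
      omega
    rcases hcases with rfl | rfl | rfl
    · -- n = 2
      obtain ⟨Y, hYlen, hY⟩ := alt_rotate l hA 0 2 (by omega)
      have hY0 : Y = [] := List.length_eq_zero_iff.mp (by omega)
      subst hY0
      have key : (N (FreeGroup.mk l) : ℝ) ≤ 2 := by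
        rw [← N_rotate l 0, hY]
        have h1 : List.map (fun j => (if j % 2 = 0 then (letter l 0).1 else (letter l (0 + 1)).1,
            (letter l (0 + j)).2)) (List.range 2) ++ []
            = [((letter l 0).1, (letter l 0).2), ((letter l (0+1)).1, (letter l (0+1)).2)] := by
          simp [List.range_succ]
        rw [h1, mk_cons]
        by_cases hs : (letter l (0+1)).2 = (letter l 0).2
        · rw [hs]
          have := b1 0 (letter l 0).2
          exact_mod_cast this.trans (by norm_num)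
        · have hs' : (letter l (0+1)).2 = !(letter l 0).2 := by
            revert hs
            cases (letter l 0).2 <;> cases (letter l (0 + 1)).2 <;> simp
          rw [hs', mk_not]
          exact_mod_cast N_p1 (N_letter _) (N_letter _) (b1 0 _)
      nlinarith
    · -- n = 4
      obtain ⟨i, h | h | h⟩ := sign_check4 x (fun i => by simp only [hx]; rw [hper])
      · exact hT1 i (by norm_num) h
      · exact hT2 i (by norm_num) h
      · obtain ⟨h1, h2, h3⟩ := h
        obtain ⟨Y, hYlen, hY⟩ := alt_rotate l hA i 4 (by omega)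
        have hY0 : Y = [] := List.length_eq_zero_iff.mp (by omega)
        subst hY0
        simp only [hx] at h1 h2 h3
        have hY' : l.rotate i = [((letter l i).1, (letter l i).2),
            ((letter l (i+1)).1, (letter l i).2), ((letter l i).1, !(letter l i).2),
            ((letter l (i+1)).1, !(letter l i).2)] := by
          rw [hY]
          simp [List.range_succ, h1, h2, h3]
        have key : (N (FreeGroup.mk l) : ℝ) ≤ 6 := by
          rw [← N_rotate l i, hY']
          have := N_comm4 (N_letter ((letter l i).1, (letter l i).2))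
            (N_letter ((letter l (i+1)).1, (letter l i).2)) (b1 i _)
          rw [← mk_not, ← mk_not, FreeGroup.mul_mk, FreeGroup.mul_mk, FreeGroup.mul_mk] at this
          exact_mod_cast this
        rw [hφ4]
        linarith
    · -- n = 6
      obtain ⟨i, h | h | h⟩ := sign_check6 x (fun i => by simp only [hx]; rw [hper])
      · exact hT1 i (by norm_num) h
      · exact hT2 i (by norm_num) h
      · obtain ⟨h1, h2, h3, h4, h5⟩ := h
        obtain ⟨Y, hYlen, hY⟩ := alt_rotate l hA i 6 (by omega)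
        have hY0 : Y = [] := List.length_eq_zero_iff.mp (by omega)
        subst hY0
        simp only [hx] at h1 h2 h3 h4 h5
        have hY' : l.rotate i = [((letter l i).1, (letter l i).2),
            ((letter l (i+1)).1, (letter l i).2), ((letter l i).1, !(letter l i).2),
            ((letter l (i+1)).1, (letter l i).2), ((letter l i).1, (letter l i).2),
            ((letter l (i+1)).1, !(letter l i).2)] := by
          rw [hY]
          simp [List.range_succ, h1, h2, h3, h4, h5]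
        have key : (N (FreeGroup.mk l) : ℝ) ≤ 15 := by
          rw [← N_rotate l i, hY']
          have := N_c6a (N_letter ((letter l i).1, (letter l i).2))
            (N_letter ((letter l (i+1)).1, (letter l i).2)) (b1 i _)
          rw [← mk_not, ← mk_not, FreeGroup.mul_mk, FreeGroup.mul_mk, FreeGroup.mul_mk,
            FreeGroup.mul_mk, FreeGroup.mul_mk] at this
          exact_mod_cast this
        rw [hφ6]
        linarith
  · obtain ⟨i, h | h | h | h | h⟩ := sign_check x
    · exact hT1 i (by omega) h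
    · exact hT2 i (by omega) h
    · -- C4
      obtain ⟨h1, h2, h3, h4, h5, h6⟩ := h
      obtain ⟨Y, hYlen, hY⟩ := alt_rotate l hA i 7 (by omega)
      simp only [hx] at h1 h2 h3 h4 h5 h6
      have hY' : l.rotate i = [((letter l i).1, (letter l i).2),
          ((letter l (i+1)).1, (letter l i).2), ((letter l i).1, !(letter l i).2)] ++
          [((letter l (i+1)).1, !(letter l i).2)] ++ ([((letter l i).1, (letter l i).2),
          ((letter l (i+1)).1, (letter l i).2), ((letter l i).1, !(letter l i).2)] ++ Y) := by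
        rw [hY]
        simp [List.range_succ, h1, h2, h3, h4, h5, h6]
      rw [← N_rotate l i, hY']
      apply rule IH _ _ Y 3 1 6 rfl rfl (by omega) (by simp)
      · have := N_comm4 (N_letter ((letter l i).1, (letter l i).2))
            (N_letter ((letter l (i+1)).1, (letter l i).2)) (b1 i _)
        rw [← mk_not, ← mk_not, FreeGroup.mul_mk, FreeGroup.mul_mk, FreeGroup.mul_mk] at this
        exact this
      · norm_num only [Nat.cast_ofNat, pow_one]
        rw [hφ7, hφ3]
        linarith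
    · -- C6a
      obtain ⟨h1, h2, h3, h4, h5, h6, h7⟩ := h
      obtain ⟨Y, hYlen, hY⟩ := alt_rotate l hA i 8 (by omega)
      simp only [hx] at h1 h2 h3 h4 h5 h6 h7
      have hY' : l.rotate i = [((letter l i).1, (letter l i).2),
          ((letter l (i+1)).1, (letter l i).2)] ++ [((letter l i).1, !(letter l i).2),
          ((letter l (i+1)).1, (letter l i).2), ((letter l i).1, (letter l i).2),
          ((letter l (i+1)).1, !(letter l i).2)] ++ ([((letter l i).1, (letter l i).2),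
          ((letter l (i+1)).1, (letter l i).2)] ++ Y) := by
        rw [hY]
        simp [List.range_succ, h1, h2, h3, h4, h5, h6, h7]
      rw [← N_rotate l i, hY']
      apply rule IH _ _ Y 2 4 15 rfl rfl (by omega) (by simp)
      · have := N_c6a (N_letter ((letter l i).1, (letter l i).2))
            (N_letter ((letter l (i+1)).1, (letter l i).2)) (b1 i _)
        rw [← mk_not, ← mk_not, FreeGroup.mul_mk, FreeGroup.mul_mk, FreeGroup.mul_mk,
            FreeGroup.mul_mk, FreeGroup.mul_mk] at this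
        exact this
      · norm_num only [Nat.cast_ofNat]
        rw [hφ8, hφ4, hφ2]
        linarith
    · -- C6b
      obtain ⟨h1, h2, h3, h4, h5, h6, h7⟩ := h
      obtain ⟨Y, hYlen, hY⟩ := alt_rotate l hA i 8 (by omega)
      simp only [hx] at h1 h2 h3 h4 h5 h6 h7
      have hY' : l.rotate i = [((letter l i).1, (letter l i).2),
          ((letter l (i+1)).1, !(letter l i).2)] ++ [((letter l i).1, (letter l i).2),
          ((letter l (i+1)).1, (letter l i).2), ((letter l i).1, !(letter l i).2),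
          ((letter l (i+1)).1, !(letter l i).2)] ++ ([((letter l i).1, (letter l i).2),
          ((letter l (i+1)).1, !(letter l i).2)] ++ Y) := by
        rw [hY]
        simp [List.range_succ, h1, h2, h3, h4, h5, h6, h7]
      rw [← N_rotate l i, hY']
      apply rule IH _ _ Y 2 4 15 rfl rfl (by omega) (by simp)
      · have := N_c6b (N_letter ((letter l i).1, (letter l i).2))
            (N_letter ((letter l (i+1)).1, (letter l i).2)) (b1 i _)
        rw [← mk_not, ← mk_not, FreeGroup.mul_mk, FreeGroup.mul_mk, FreeGroup.mul_mk,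
            FreeGroup.mul_mk, FreeGroup.mul_mk] at this
        exact this
      · norm_num only [Nat.cast_ofNat]
        rw [hφ8, hφ4, hφ2]
        linarith


/-! ### The quantities of the problem -/

theorem L_le (w : FreeGroup (Fin 2)) : (L w : ℝ) ≤ 2 * Real.goldenRatio ^ cycLen w := by
  have h1 := FreeGroup.reduceCyclically.conj_conjugator_reduceCyclically w.toWord
  have h2 : w = FreeGroup.mk (FreeGroup.reduceCyclically.conjugator w.toWord) *
      FreeGroup.mk (FreeGroup.reduceCyclically w.toWord) *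
      (FreeGroup.mk (FreeGroup.reduceCyclically.conjugator w.toWord))⁻¹ := by
    rw [FreeGroup.inv_mk, FreeGroup.mul_mk, FreeGroup.mul_mk, h1, FreeGroup.mk_toWord]
  have h3 : N w = N (FreeGroup.mk (FreeGroup.reduceCyclically w.toWord)) := N_conj _ h2
  have h4 := word_bound (cycLen w) (FreeGroup.reduceCyclically w.toWord) rfl
  rw [← h3] at h4
  exact h4

lemma H_le_L (w : FreeGroup (Fin 2)) : H w ≤ L w := normInf_le_normOne _

lemma L_le_floor {n : ℕ} {w : FreeGroup (Fin 2)} (h : cycLen w = n) :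
    L w ≤ ⌊2 * Real.goldenRatio ^ n⌋₊ := by
  apply Nat.le_floor
  rw [← h]
  exact L_le w

lemma bddL (n : ℕ) : BddAbove {k | ∃ w, cycLen w = n ∧ L w = k} := by
  refine ⟨⌊2 * Real.goldenRatio ^ n⌋₊, ?_⟩
  rintro k ⟨w, hw, rfl⟩
  exact L_le_floor hw

lemma bddH (n : ℕ) : BddAbove {k | ∃ w, cycLen w = n ∧ H w = k} := by
  refine ⟨⌊2 * Real.goldenRatio ^ n⌋₊, ?_⟩
  rintro k ⟨w, hw, rfl⟩
  exact (H_le_L w).trans (L_le_floor hw)

lemma cycLen_pow (n : ℕ) : cycLen (FreeGroup.of 0 ^ n) = n := by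
  have h0 : (FreeGroup.of (0 : Fin 2) ^ n).toWord = List.replicate n (0, true) :=
    FreeGroup.toWord_of_pow _ _
  unfold cycLen
  rw [h0]
  have h1 := FreeGroup.reduceCyclically.conj_conjugator_reduceCyclically
    (List.replicate n ((0 : Fin 2), true))
  have h2 : FreeGroup.reduceCyclically.conjugator (List.replicate n ((0 : Fin 2), true)) = [] := by
    by_contra hne
    obtain ⟨c, cs, hc⟩ := List.exists_cons_of_ne_nil hne
    rw [hc] at h1
    have m1 : c ∈ List.replicate n ((0 : Fin 2), true) := by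
      rw [← h1]; simp
    have m2 : (c.1, !c.2) ∈ List.replicate n ((0 : Fin 2), true) := by
      rw [← h1]; simp [FreeGroup.invRev]
    have e1 := List.eq_of_mem_replicate m1
    have e2 := List.eq_of_mem_replicate m2
    rw [e1] at e2
    simp at e2
  rw [h2] at h1
  simp only [FreeGroup.invRev_empty, List.nil_append, List.append_nil] at h1
  rw [h1, List.length_replicate]

lemma exists_isGreatest (f : FreeGroup (Fin 2) → ℕ) (n : ℕ)
    (hb : BddAbove {k | ∃ w, cycLen w = n ∧ f w = k}) :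
    IsGreatest {k | ∃ w, cycLen w = n ∧ f w = k} (sSup {k | ∃ w, cycLen w = n ∧ f w = k}) := by
  have hne : {k | ∃ w, cycLen w = n ∧ f w = k}.Nonempty :=
    ⟨_, FreeGroup.of 0 ^ n, cycLen_pow n, rfl⟩
  exact ⟨Nat.sSup_mem hne hb, fun k hk => le_csSup hb hk⟩

/-- `maxH n` is indeed the maximum of `H(w)` over the words with `‖w‖ = n`. -/
theorem isGreatest_maxH (n : ℕ) : IsGreatest {k | ∃ w, cycLen w = n ∧ H w = k} (maxH n) :=
  exists_isGreatest H n (bddH n)

/-- `maxL n` is indeed the maximum of `L(w)` over the words with `‖w‖ = n`. -/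
theorem isGreatest_maxL (n : ℕ) : IsGreatest {k | ∃ w, cycLen w = n ∧ L w = k} (maxL n) :=
  exists_isGreatest L n (bddL n)

lemma maxL_le (n : ℕ) : (maxL n : ℝ) ≤ 2 * Real.goldenRatio ^ n := by
  obtain ⟨w, hw, h⟩ := (isGreatest_maxL n).1
  rw [← h, ← hw]
  exact L_le w

lemma maxH_le_maxL (n : ℕ) : maxH n ≤ maxL n := by
  obtain ⟨w, hw, h⟩ := (isGreatest_maxH n).1
  rw [← h]
  exact (H_le_L w).trans ((isGreatest_maxL n).2 ⟨w, hw, rfl⟩)

/-! ### The lower bound -/

lemma totalDegree_pow (n : ℕ) : (tracePoly (FreeGroup.of 0 ^ n)).totalDegree ≤ n ∧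
    (tracePoly (FreeGroup.of 0 ^ (n + 1))).totalDegree ≤ n + 1 := by
  induction n with
  | zero =>
    refine ⟨?_, ?_⟩
    · rw [pow_zero, tp_one]
      exact (totalDegree_C _).le
    · rw [zero_add, pow_one, tp_of0]
      exact (totalDegree_X _).le
  | succ n ih =>
    refine ⟨ih.2, ?_⟩
    have h1 : (FreeGroup.of (0 : Fin 2)) ^ (n + 1 + 1) =
        FreeGroup.of 0 * FreeGroup.of 0 ^ (n + 1) := pow_succ' _ _
    have h2 : tracePoly (FreeGroup.of 0 * (FreeGroup.of (0 : Fin 2) ^ (n + 1))⁻¹) =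
        tracePoly (FreeGroup.of 0 ^ n) := by
      rw [← tp_inv (FreeGroup.of 0 ^ n)]
      congr 1
      rw [pow_succ, _root_.mul_inv_rev, mul_inv_cancel_left]
    rw [h1, tp_mul, h2, tp_of0]
    refine (totalDegree_sub _ _).trans (max_le ?_ (ih.1.trans (by omega)))
    refine (totalDegree_mul _ _).trans ?_
    rw [totalDegree_X]
    have := ih.2
    omega

lemma card_support_le (f : MvPolynomial (Fin 3) ℤ) (n : ℕ) (hf : f.totalDegree ≤ n) :
    f.support.card ≤ (n + 1) ^ 3 := by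
  have h1 : ((Fintype.piFinset fun _ : Fin 3 => Finset.range (n + 1))).card = (n + 1) ^ 3 := by
    simp
  rw [← h1]
  refine Finset.card_le_card_of_injOn (fun m => (m : Fin 3 → ℕ)) ?_ ?_
  · intro m hm
    simp only [Finset.mem_coe, Fintype.mem_piFinset, Finset.mem_range]
    intro i
    have h2 := le_totalDegree (Finset.mem_coe.mp hm)
    have h3 : m i ≤ m.sum fun _ e => e := by
      rw [Finsupp.sum_fintype _ _ (fun _ => rfl)]
      exact Finset.single_le_sum (f := fun i => m i) (fun _ _ => Nat.zero_le _) (Finset.mem_univ i)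
    omega
  · intro m _ m' _ h
    exact DFunLike.coe_injective h

lemma L_pow_ge (n : ℕ) : Real.goldenRatio ^ n - 1 ≤ L (FreeGroup.of 0 ^ n) := by
  have hφ1 := Real.one_lt_goldenRatio
  have hφ0 := Real.goldenRatio_pos
  have hφ2 := Real.goldenRatio_sq
  set c : ℂ := ((Real.goldenRatio : ℝ) : ℂ) with hc
  have hc0 : c ≠ 0 := by
    rw [hc]; exact_mod_cast hφ0.ne'
  have hc2 : c ^ 2 = c + 1 := by
    rw [hc]; exact_mod_cast hφ2
  obtain ⟨A, hA⟩ : ∃ A : SpecialLinearGroup (Fin 2) ℂ,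
      (A : Matrix (Fin 2) (Fin 2) ℂ) = Matrix.diagonal ![Complex.I * c, -Complex.I * c⁻¹] := by
    refine ⟨⟨Matrix.diagonal ![Complex.I * c, -Complex.I * c⁻¹], ?_⟩, rfl⟩
    rw [Matrix.det_diagonal, Fin.prod_univ_two]
    simp only [cons_val_zero, cons_val_one]
    field_simp
    linear_combination -Complex.I_sq
  obtain ⟨B, hB⟩ : ∃ B : SpecialLinearGroup (Fin 2) ℂ,
      (B : Matrix (Fin 2) (Fin 2) ℂ) = !![0, 1; -1, 0] :=
    ⟨⟨!![0, 1; -1, 0], by simp [det_fin_two]⟩, rfl⟩
  have hcI : c - c⁻¹ = 1 := by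
    field_simp
    linear_combination hc2
  have htA : tr A = Complex.I := by
    rw [tr, hA, trace_diagonal, Fin.sum_univ_two]
    simp only [cons_val_zero, cons_val_one]
    linear_combination Complex.I * hcI
  have htB : tr B = 0 := by
    rw [tr, hB]
    simp [trace_fin_two]
  have htAB : tr (A * B) = 0 := by
    rw [tr_mul_entries, hA, hB]
    simp
  have h1 := tracePoly_spec (FreeGroup.of 0 ^ n) A B
  have h2 : tr (FreeGroup.lift ![A, B] (FreeGroup.of 0 ^ n)) =
      (Complex.I * c) ^ n + (-Complex.I * c⁻¹) ^ n := by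
    have h3 : tr (A ^ n) = ((A : Matrix (Fin 2) (Fin 2) ℂ) ^ n).trace := by simp [tr]
    rw [map_pow, FreeGroup.lift_apply_of, cons_val_zero, h3, hA,
      diagonal_pow, trace_diagonal, Fin.sum_univ_two]
    simp
  have h3 := norm_aeval_le (tracePoly (FreeGroup.of 0 ^ n)) ![tr A, tr B, tr (A * B)] (by
    intro i
    rw [htA, htB, htAB]
    fin_cases i <;> simp)
  rw [h1, h2] at h3
  have h4 : ‖(Complex.I * c) ^ n‖ = Real.goldenRatio ^ n := by
    rw [norm_pow, norm_mul, Complex.norm_I, one_mul, hc, Complex.norm_real, Real.norm_eq_abs,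
      abs_of_pos hφ0]
  have h5 : ‖(-Complex.I * c⁻¹) ^ n‖ ≤ 1 := by
    rw [norm_pow, norm_mul, norm_neg, Complex.norm_I, one_mul, norm_inv, hc, Complex.norm_real,
      Real.norm_eq_abs, abs_of_pos hφ0]
    apply pow_le_one₀ (by positivity)
    exact inv_le_one_of_one_le₀ hφ1.le
  have h6 : ‖(Complex.I * c) ^ n‖ - ‖(-Complex.I * c⁻¹) ^ n‖ ≤
      ‖(Complex.I * c) ^ n + (-Complex.I * c⁻¹) ^ n‖ := by
    have := norm_sub_norm_le ((Complex.I * c) ^ n) (-((-Complex.I * c⁻¹) ^ n))
    rwa [norm_neg, sub_neg_eq_add] at this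
  rw [h4] at h6
  have h7 : ((normOne (tracePoly (FreeGroup.of 0 ^ n)) : ℕ) : ℝ) = L (FreeGroup.of 0 ^ n) := rfl
  linarith

lemma maxH_ge (n : ℕ) (hn : 2 ≤ n) : Real.goldenRatio ^ n / (n : ℝ) ^ 7 ≤ maxH n := by
  have h1 := L_pow_ge n
  have h2 : L (FreeGroup.of 0 ^ n) ≤ (n + 1) ^ 3 * H (FreeGroup.of 0 ^ n) :=
    (normOne_le_card_mul _).trans
      (Nat.mul_le_mul_right _ (card_support_le _ n (totalDegree_pow n).1))
  have h3 : H (FreeGroup.of 0 ^ n) ≤ maxH n := (isGreatest_maxH n).2 ⟨_, cycLen_pow n, rfl⟩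
  have h4 : L (FreeGroup.of 0 ^ n) ≤ (n + 1) ^ 3 * maxH n :=
    h2.trans (Nat.mul_le_mul_left _ h3)
  have h5 : (L (FreeGroup.of 0 ^ n) : ℝ) ≤ ((n : ℝ) + 1) ^ 3 * maxH n := by exact_mod_cast h4
  have hφ1 := Real.one_lt_goldenRatio
  have hφ2 := Real.goldenRatio_sq
  have h6 : (2 : ℝ) ≤ Real.goldenRatio ^ n := by
    calc (2 : ℝ) ≤ Real.goldenRatio ^ 2 := by linarith
      _ ≤ Real.goldenRatio ^ n := pow_le_pow_right₀ hφ1.le hn
  have hn' : (2 : ℝ) ≤ n := by exact_mod_cast hn
  have h7 : 2 * ((n : ℝ) + 1) ^ 3 ≤ (n : ℝ) ^ 7 := by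
    have e1 : ((n : ℝ) + 1) ^ 3 ≤ (2 * (n : ℝ)) ^ 3 := by
      gcongr
      linarith
    have e2 : (16 : ℝ) ≤ (n : ℝ) ^ 4 := by
      calc (16 : ℝ) = 2 ^ 4 := by norm_num
        _ ≤ (n : ℝ) ^ 4 := by gcongr
    calc 2 * ((n : ℝ) + 1) ^ 3 ≤ 2 * (2 * (n : ℝ)) ^ 3 := by linarith
      _ = 16 * (n : ℝ) ^ 3 := by ring
      _ ≤ (n : ℝ) ^ 4 * (n : ℝ) ^ 3 := by gcongr
      _ = (n : ℝ) ^ 7 := by ring
  rw [div_le_iff₀ (by positivity)]
  have h8 : (0 : ℝ) ≤ maxH n := Nat.cast_nonneg _
  nlinarith [mul_le_mul_of_nonneg_left h7 h8]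

lemma rpow_aux (n : ℕ) (k : ℕ) :
    (((n : ℝ) ^ k) ^ (1 / (n : ℝ))) = ((n : ℝ) ^ (1 / (n : ℝ))) ^ k := by
  have hn0 : (0 : ℝ) ≤ n := Nat.cast_nonneg _
  rw [← Real.rpow_natCast, ← Real.rpow_natCast, ← Real.rpow_mul hn0, ← Real.rpow_mul hn0, mul_comm]

lemma rpow_aux2 (n : ℕ) (hn : 2 ≤ n) :
    ((Real.goldenRatio ^ n) ^ (1 / (n : ℝ))) = Real.goldenRatio := by
  have hn0 : (n : ℝ) ≠ 0 := by positivity
  rw [← Real.rpow_natCast, ← Real.rpow_mul Real.goldenRatio_pos.le, mul_one_div_cancel hn0,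
    Real.rpow_one]

lemma tendsto_aux : Filter.Tendsto (fun n : ℕ => (n : ℝ) ^ (1 / (n : ℝ))) Filter.atTop (nhds 1) :=
  tendsto_rpow_div.comp tendsto_natCast_atTop_atTop

lemma squeeze (u : ℕ → ℕ) (h1 : ∀ n : ℕ, 2 ≤ n → Real.goldenRatio ^ n / (n : ℝ) ^ 7 ≤ u n)
    (h2 : ∀ n : ℕ, (u n : ℝ) ≤ 2 * Real.goldenRatio ^ n) :
    Filter.Tendsto (fun n : ℕ => (u n : ℝ) ^ (1 / (n : ℝ))) Filter.atTop
      (nhds Real.goldenRatio) := by
  have hφ0 := Real.goldenRatio_pos
  have l1 : Filter.Tendsto (fun n : ℕ => Real.goldenRatio / ((n : ℝ) ^ (1 / (n : ℝ))) ^ 7)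
      Filter.atTop (nhds (Real.goldenRatio / 1 ^ 7)) :=
    Filter.Tendsto.div tendsto_const_nhds (tendsto_aux.pow 7) (by norm_num)
  have l2 : Filter.Tendsto (fun n : ℕ => ((n : ℝ) ^ (1 / (n : ℝ))) * Real.goldenRatio)
      Filter.atTop (nhds (1 * Real.goldenRatio)) :=
    tendsto_aux.mul tendsto_const_nhds
  rw [one_pow, div_one] at l1
  rw [one_mul] at l2
  refine tendsto_of_tendsto_of_tendsto_of_le_of_le' l1 l2 ?_ ?_
  · filter_upwards [Filter.eventually_ge_atTop 2] with n hn
    rw [← rpow_aux n 7]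
    conv_lhs => rw [← rpow_aux2 n hn]
    rw [← Real.div_rpow (by positivity) (by positivity)]
    exact Real.rpow_le_rpow (by positivity) (h1 n hn) (by positivity)
  · filter_upwards [Filter.eventually_ge_atTop 2] with n hn
    have hn' : (2 : ℝ) ≤ n := by exact_mod_cast hn
    calc (u n : ℝ) ^ (1 / (n : ℝ)) ≤ ((n : ℝ) * Real.goldenRatio ^ n) ^ (1 / (n : ℝ)) := by
          apply Real.rpow_le_rpow (Nat.cast_nonneg _) _ (by positivity)
          refine (h2 n).trans ?_
          gcongr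
      _ = (n : ℝ) ^ (1 / (n : ℝ)) * (Real.goldenRatio ^ n) ^ (1 / (n : ℝ)) :=
          Real.mul_rpow (by positivity) (by positivity)
      _ = _ := by rw [rpow_aux2 n hn]

/-- **Main result**: `C_H = C_L = φ`, the golden ratio. -/
theorem main : CH = Real.goldenRatio ∧ CL = Real.goldenRatio := by
  constructor
  · apply Filter.Tendsto.limsup_eq
    exact squeeze maxH maxH_ge (fun n =>
      (by exact_mod_cast maxH_le_maxL n : (maxH n : ℝ) ≤ maxL n).trans (maxL_le n))
  · apply Filter.Tendsto.limsup_eq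
    exact squeeze maxL (fun n hn => (maxH_ge n hn).trans (by exact_mod_cast maxH_le_maxL n))
      maxL_le

end Pool.Agent.Fricke58e1
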